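import Pool.Agent.Helper90.PG.Three

/-!
# The number of commuting pairs as a sum over matrices
-/

set_option autoImplicit false

namespace Pool.Agent.Helper90.PG

open Matrix Module Pool.Agent.Helper90.PZ Pool.Agent.E8helper17.FZ

section
variable {A C T : Type} [Fintype A] [Fintype C] [Fintype T]

theorem card_ker {K : Type} [Field K] [Finite K] (L : Matrix A C K) :
    Nat.card {w : C → K // ∀ a, ∑ c, L a c * w c = 0} = Nat.card K ^ (Fintype.card C - L.rank) := by
  have h1 : Nat.card {w : C → K // ∀ a, ∑ c, L a c * w c = 0} =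
      Nat.card (LinearMap.ker L.mulVecLin) := by
    refine Nat.card_congr (Equiv.subtypeEquivRight fun w => ?_)
    rw [LinearMap.mem_ker, mulVecLin_apply]
    constructor
    · intro h; ext a; exact h a
    · intro h a; exact congrFun h a
  rw [h1, Module.natCard_eq_pow_finrank (K := K)]
  congr 1
  have h2 := L.mulVecLin.finrank_range_add_finrank_ker
  rw [Module.finrank_fintype_fun_eq_card] at h2
  have h3 : L.rank = finrank K (LinearMap.range L.mulVecLin) := rfl
  omega

theorem card_ker' {K : Type} [Field K] [Finite K] (L : Matrix A C K) :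
    Nat.card {v : A → K // ∀ c, ∑ a, L a c * v a = 0} = Nat.card K ^ (Fintype.card A - L.rank) := by
  rw [← rank_transpose]
  exact card_ker Lᵀ

theorem card_ann {K : Type} [Field K] [Finite K] [DecidableEq K] (a : K) :
    Nat.card {u : K // a * u = 0} = if a = 0 then Nat.card K else 1 := by
  split_ifs with h
  · refine Nat.card_congr (Equiv.subtypeUnivEquiv fun u => ?_)
    rw [h, zero_mul]
  · have : Unique {u : K // a * u = 0} :=
      { default := ⟨0, mul_zero a⟩
        uniq := fun u => Subtype.ext ((mul_eq_zero.1 u.2).resolve_left h) }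
    exact Nat.card_unique

/-- the weight of a matrix -/
noncomputable def wt (p : T → A × C) (e : ℕ) {K : Type} [Field K] (l : Matrix A C K) : ℕ := by
  classical
  exact (Nat.card K ^ (Fintype.card A - l.rank) * Nat.card K ^ (Fintype.card C - l.rank)) ^ e *
    ∏ t, (if l (p t).1 (p t).2 = 0 then Nat.card K * Nat.card K else 1)

theorem card_dcond (p : T → A × C) (e : ℕ) {K : Type} [Field K] [Finite K] (l : Matrix A C K) :
    Nat.card {x : Par A C T e K // DCond p l x} = wt p e l := by
  classical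
  have eq : {x : Par A C T e K // DCond p l x} ≃
      (Fin e → {v : A → K // ∀ c, ∑ a, l a c * v a = 0} × {w : C → K // ∀ a, ∑ c, l a c * w c = 0}) ×
      (∀ t : T, {u : K // l (p t).1 (p t).2 * u = 0} × {u : K // l (p t).1 (p t).2 * u = 0}) :=
    { toFun := fun x => (fun i => (⟨(x.1.1 i).1, (x.2.1 i).1⟩, ⟨(x.1.1 i).2, (x.2.1 i).2⟩),
        fun t => (⟨(x.1.2 t).1, (x.2.2 t).1⟩, ⟨(x.1.2 t).2, (x.2.2 t).2⟩))
      invFun := fun y => ⟨(fun i => ((y.1 i).1.1, (y.1 i).2.1), fun t => ((y.2 t).1.1, (y.2 t).2.1)),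
        fun i => ⟨(y.1 i).1.2, (y.1 i).2.2⟩, fun t => ⟨(y.2 t).1.2, (y.2 t).2.2⟩⟩
      left_inv := fun x => rfl
      right_inv := fun y => rfl }
  rw [Nat.card_congr eq, Nat.card_prod, Nat.card_fun, Nat.card_prod, card_ker' l, card_ker l, Nat.card_pi,
    Nat.card_eq_fintype_card (α := Fin e), Fintype.card_fin]
  have h1 : ∏ t : T, Nat.card ({u : K // l (p t).1 (p t).2 * u = 0} × {u : K // l (p t).1 (p t).2 * u = 0}) =
      ∏ t : T, (if l (p t).1 (p t).2 = 0 then Nat.card K * Nat.card K else 1) := by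
    refine Finset.prod_congr rfl fun t _ => ?_
    rw [Nat.card_prod, card_ann]
    split_ifs
    · rfl
    · rfl
  rw [h1]
  unfold wt
  rfl

/-- the sum of the weights over the matrices with prescribed zeros -/
noncomputable def W (p : T → A × C) (e : ℕ) (Z : A → C → Prop) (K : Type) [Field K] : ℤ := by
  classical
  exact ∑ᶠ l : Matrix A C K, (if (∀ a c, Z a c → l a c = 0) then (wt p e l : ℤ) else 0)

theorem W_eq (p : T → A × C) (e : ℕ) (Z : A → C → Prop) (K : Type) [Field K] [Fintype K]
    [DecidableEq A] [DecidableEq C] [DecidablePred fun l : Matrix A C K => ∀ a c, Z a c → l a c = 0] :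
    W p e Z K = ∑ l : Matrix A C K, (if (∀ a c, Z a c → l a c = 0) then (wt p e l : ℤ) else 0) := by
  unfold W
  rw [finsum_eq_sum_of_fintype]
  refine Finset.sum_congr rfl fun l _ => ?_
  congr

theorem card_par (e : ℕ) (K : Type) [Field K] [Finite K] :
    Nat.card (Par A C T e K) = Nat.card K ^ (e * (Fintype.card A + Fintype.card C) +
      2 * Fintype.card T) := by
  show Nat.card ((Fin e → (A → K) × (C → K)) × (T → K × K)) = _
  rw [Nat.card_prod, Nat.card_fun, Nat.card_fun, Nat.card_prod, Nat.card_prod, Nat.card_fun,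
    Nat.card_fun, Nat.card_eq_fintype_card (α := Fin e), Fintype.card_fin,
    Nat.card_eq_fintype_card (α := A), Nat.card_eq_fintype_card (α := C),
    Nat.card_eq_fintype_card (α := T), ← pow_add, ← pow_mul, ← pow_two, ← pow_mul, ← pow_add]
  congr 1
  ring

variable [DecidableEq A] [DecidableEq C] [DecidableEq T]

/-- **Commuting pairs for three levels.** -/
theorem comm_count (p : T → A × C) (e : ℕ) (K : Type) [Field K] [Finite K] :
    (commN (rel p : Ix A C T e → Ix A C T e → Prop) K : ℤ) *
      (Nat.card K : ℤ) ^ (Fintype.card A * Fintype.card C) =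
      (Nat.card K : ℤ) ^ (2 * (Fintype.card A * Fintype.card C) +
        (e * (Fintype.card A + Fintype.card C) + 2 * Fintype.card T)) *
          W p e (fun _ _ => False) K := by
  classical
  have := Fintype.ofFinite K
  have hcorner : Nat.card (A → C → K) = Nat.card K ^ (Fintype.card A * Fintype.card C) := by
    rw [Nat.card_fun, Nat.card_fun, Nat.card_eq_fintype_card (α := A),
      Nat.card_eq_fintype_card (α := C), ← pow_mul, mul_comm]
  -- the commuting pairs as zeros of `bil`
  have e1 : {q : Matrix (Ix A C T e) (Ix A C T e) K × Matrix (Ix A C T e) (Ix A C T e) K //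
      (Supp (rel p) q.1 ∧ Supp (rel p) q.2) ∧ q.1 * q.2 = q.2 * q.1} ≃
      {x : Par A C T e K × Par A C T e K // bil p x.1 x.2 = 0} × (A → C → K) × (A → C → K) :=
    { toFun := fun q => (⟨((suppEquiv p ⟨q.1.1, q.2.1.1⟩).1, (suppEquiv p ⟨q.1.2, q.2.1.2⟩).1), by
          rw [← comm_iff p _ _ (suppEquiv p ⟨q.1.1, q.2.1.1⟩).2 (suppEquiv p ⟨q.1.2, q.2.1.2⟩).2]
          have h1 : mk p (suppEquiv p ⟨q.1.1, q.2.1.1⟩).1 (suppEquiv p ⟨q.1.1, q.2.1.1⟩).2 = q.1.1 :=
            congrArg Subtype.val ((suppEquiv p).symm_apply_apply ⟨q.1.1, q.2.1.1⟩)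
          have h2 : mk p (suppEquiv p ⟨q.1.2, q.2.1.2⟩).1 (suppEquiv p ⟨q.1.2, q.2.1.2⟩).2 = q.1.2 :=
            congrArg Subtype.val ((suppEquiv p).symm_apply_apply ⟨q.1.2, q.2.1.2⟩)
          rw [h1, h2]
          exact q.2.2⟩, (suppEquiv p ⟨q.1.1, q.2.1.1⟩).2, (suppEquiv p ⟨q.1.2, q.2.1.2⟩).2)
      invFun := fun x => ⟨(mk p x.1.1.1 x.2.1, mk p x.1.1.2 x.2.2),
        ⟨((suppEquiv p).symm (x.1.1.1, x.2.1)).2, ((suppEquiv p).symm (x.1.1.2, x.2.2)).2⟩,
          (comm_iff p _ _ _ _).2 x.1.2⟩
      left_inv := fun q => by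
        apply Subtype.ext
        refine Prod.ext ?_ ?_
        · exact congrArg Subtype.val ((suppEquiv p).symm_apply_apply ⟨q.1.1, q.2.1.1⟩)
        · exact congrArg Subtype.val ((suppEquiv p).symm_apply_apply ⟨q.1.2, q.2.1.2⟩)
      right_inv := fun x => by
        have h1 := (suppEquiv p).apply_symm_apply (x.1.1.1, x.2.1)
        have h2 := (suppEquiv p).apply_symm_apply (x.1.1.2, x.2.2)
        have h11 := congrArg Prod.fst h1
        have h21 := congrArg Prod.fst h2
        have h12 := congrArg Prod.snd h1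
        have h22 := congrArg Prod.snd h2
        exact Prod.ext (Subtype.ext (Prod.ext h11 h21)) (Prod.ext h12 h22) }
  have h1 : commN (rel p : Ix A C T e → Ix A C T e → Prop) K =
      Nat.card {x : Par A C T e K × Par A C T e K // bil p x.1 x.2 = 0} *
        (Nat.card K ^ (Fintype.card A * Fintype.card C) *
          Nat.card K ^ (Fintype.card A * Fintype.card C)) := by
    unfold commN
    rw [Nat.card_congr e1, Nat.card_prod, Nat.card_prod, hcorner]
  have h2 := card_zeros (K := K) (X := Par A C T e K) (E := Par A C T e K) (I := A × C) (bil p)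
  rw [Fintype.card_prod] at h2
  -- the dual side
  have e2 : {q : (A × C → K) × Par A C T e K // ∀ y, ∑ i, q.1 i * bil p q.2 y i = 0} ≃
      Σ l : Matrix A C K, {x : Par A C T e K // DCond p l x} :=
    { toFun := fun q => ⟨Matrix.of fun a c => q.1.1 (a, c), q.1.2, (dual_iff p _ _).1 q.2⟩
      invFun := fun s => ⟨(fun ac => s.1 ac.1 ac.2, s.2.1), (dual_iff p _ _).2 s.2.2⟩
      left_inv := fun q => rfl
      right_inv := fun s => rfl }
  have h3 : Nat.card {q : (A × C → K) × Par A C T e K // ∀ y, ∑ i, q.1 i * bil p q.2 y i = 0} =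
      ∑ l : Matrix A C K, wt p e l := by
    rw [Nat.card_congr e2, Nat.card_sigma]
    exact Finset.sum_congr rfl fun l _ => card_dcond p e l
  have h4 : W p e (fun _ _ => False) K = ((∑ l : Matrix A C K, wt p e l : ℕ) : ℤ) := by
    rw [W_eq]
    push_cast
    refine Finset.sum_congr rfl fun l _ => ?_
    rw [if_pos fun _ _ h => h.elim]
  rw [h3, card_par] at h2
  rw [h1, h4]
  zify at h2
  push_cast
  rw [pow_add, two_mul, pow_add]
  linear_combination ((Nat.card K : ℤ) ^ (Fintype.card A * Fintype.card C) *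
    (Nat.card K : ℤ) ^ (Fintype.card A * Fintype.card C)) * h2

end

end Pool.Agent.Helper90.PG
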