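import Pool.Agent.Helper90.PG.Group

/-!
# Zeros of families of linear maps, counted on the dual side
-/

set_option autoImplicit false

namespace Pool.Agent.Helper90.PG

open Matrix Module Pool.Agent.Helper90.PZ

variable {K : Type} [Field K] [Finite K]

theorem card_dual {E I : Type} [AddCommGroup E] [Module K E] [Finite E] [Fintype I]
    (φ : E →ₗ[K] (I → K)) :
    Nat.card {y : E // φ y = 0} * Nat.card K ^ Fintype.card I =
      Nat.card E * Nat.card {l : I → K // ∀ y, ∑ i, l i * φ y i = 0} := by
  classical
  have hf : Module.Finite K E := Module.Finite.of_finite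
  let ψ : (I → K) →ₗ[K] Module.Dual K E := φ.dualMap ∘ₗ (dotProductEquiv K I).toLinearMap
  have h1 : Nat.card {y : E // φ y = 0} = Nat.card K ^ finrank K (LinearMap.ker φ) :=
    Module.natCard_eq_pow_finrank (K := K) (V := LinearMap.ker φ)
  have h2 : Nat.card {l : I → K // ∀ y, ∑ i, l i * φ y i = 0} =
      Nat.card K ^ finrank K (LinearMap.ker ψ) := by
    rw [← Module.natCard_eq_pow_finrank (K := K) (V := LinearMap.ker ψ)]
    refine Nat.card_congr (Equiv.subtypeEquivRight fun l => ?_)
    rw [LinearMap.mem_ker]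
    constructor
    · intro h
      ext y
      exact h y
    · intro h y
      exact LinearMap.congr_fun h y
  have h3 : Nat.card E = Nat.card K ^ finrank K E := Module.natCard_eq_pow_finrank (K := K)
  have h4 := φ.finrank_range_add_finrank_ker
  have h5 := ψ.finrank_range_add_finrank_ker
  have h6 : finrank K (LinearMap.range ψ) = finrank K (LinearMap.range φ) := by
    rw [← LinearMap.finrank_range_dualMap_eq_finrank_range φ]
    rw [LinearMap.range_comp_of_range_eq_top _ (LinearEquiv.range _)]
  rw [Module.finrank_fintype_fun_eq_card] at h5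
  rw [h1, h2, h3, ← pow_add, ← pow_add]
  congr 1
  omega

/-- zeros of a family of linear maps -/
theorem card_zeros {X E I : Type} [Finite X] [AddCommGroup E] [Module K E] [Finite E] [Fintype I]
    (φ : X → E →ₗ[K] (I → K)) :
    Nat.card {p : X × E // φ p.1 p.2 = 0} * Nat.card K ^ Fintype.card I =
      Nat.card E * Nat.card {p : (I → K) × X // ∀ y, ∑ i, p.1 i * φ p.2 y i = 0} := by
  classical
  have := Fintype.ofFinite X
  have := Fintype.ofFinite E
  have e1 : {p : X × E // φ p.1 p.2 = 0} ≃ Σ x : X, {y : E // φ x y = 0} :=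
    { toFun := fun p => ⟨p.1.1, p.1.2, p.2⟩
      invFun := fun s => ⟨(s.1, s.2.1), s.2.2⟩
      left_inv := fun p => rfl
      right_inv := fun s => rfl }
  have e2 : {p : (I → K) × X // ∀ y, ∑ i, p.1 i * φ p.2 y i = 0} ≃
      Σ x : X, {l : I → K // ∀ y, ∑ i, l i * φ x y i = 0} :=
    { toFun := fun p => ⟨p.1.2, p.1.1, p.2⟩
      invFun := fun s => ⟨(s.2.1, s.1), s.2.2⟩
      left_inv := fun p => rfl
      right_inv := fun s => rfl }
  rw [Nat.card_congr e1, Nat.card_congr e2, Nat.card_sigma, Nat.card_sigma, Finset.sum_mul,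
    Finset.mul_sum]
  exact Finset.sum_congr rfl fun x _ => card_dual (φ x)

end Pool.Agent.Helper90.PG
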