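import Pool.Agent.Helper90.PG.CountW

/-!
# From the class numbers to the matrices with prescribed zeros
-/

set_option autoImplicit false

namespace Pool.Agent.Helper90.PG

open Matrix Module Pool.Agent.Helper90.PZ Pool.Agent.E8helper17.FZ

section
variable {P : ℕ} {𝒞 : ((K : Type) → [Field K] → ℤ) → Prop} (h𝒞 : ClosedClass P 𝒞)
include h𝒞

theorem div_diff {N : (K : Type) → [Field K] → ℤ} (hN : Growth N) {a b : ℕ} (hab : a ≠ b)
    (h : 𝒞 (fun K _ => ((Nat.card K : ℤ) ^ a - (Nat.card K : ℤ) ^ b) * N K)) : 𝒞 N := by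
  rcases lt_or_gt_of_ne hab with h1 | h1
  · refine h𝒞.div hN (Polynomial.X ^ a * (Polynomial.X ^ (b - a) - 1))
      (.mul (Den.X.pow a) (.cyc _ (by omega))) (h𝒞.congr (h𝒞.neg h) fun K _ _ _ => ?_)
    simp only [Polynomial.eval_mul, Polynomial.eval_pow, Polynomial.eval_X, Polynomial.eval_sub,
      Polynomial.eval_one]
    have h2 : (Nat.card K : ℤ) ^ b = (Nat.card K : ℤ) ^ a * (Nat.card K : ℤ) ^ (b - a) := by
      rw [← pow_add, Nat.add_sub_cancel' h1.le]
    rw [h2]
    ring
  · refine h𝒞.div hN (Polynomial.X ^ b * (Polynomial.X ^ (a - b) - 1))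
      (.mul (Den.X.pow b) (.cyc _ (by omega))) (h𝒞.congr h fun K _ _ _ => ?_)
    simp only [Polynomial.eval_mul, Polynomial.eval_pow, Polynomial.eval_X, Polynomial.eval_sub,
      Polynomial.eval_one]
    have h2 : (Nat.card K : ℤ) ^ a = (Nat.card K : ℤ) ^ b * (Nat.card K : ℤ) ^ (a - b) := by
      rw [← pow_add, Nat.add_sub_cancel' (le_of_lt h1)]
    rw [h2]
    ring

/-- functions are determined by their power sums -/
theorem elimination (d : ℕ → ℕ) (s : Finset ℕ) (hd : ∀ r ∈ s, ∀ r' ∈ s, d r = d r' → r = r') :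
    ∀ (N : ℕ → (K : Type) → [Field K] → ℤ), (∀ r ∈ s, Growth (N r)) →
      (∀ e : ℕ, 𝒞 (fun K _ => ∑ r ∈ s, ((Nat.card K : ℤ) ^ d r) ^ e * N r K)) → ∀ r ∈ s, 𝒞 (N r) := by
  classical
  induction s using Finset.induction_on with
  | empty => intro N _ _ r hr; exact absurd hr (Finset.notMem_empty r)
  | insert r₀ s hr₀ ih =>
    intro N hN h
    have h1 : ∀ r ∈ s, 𝒞 (fun K _ => ((Nat.card K : ℤ) ^ d r - (Nat.card K : ℤ) ^ d r₀) * N r K) := by
      refine ih (fun r hr r' hr' => hd r (Finset.mem_insert_of_mem hr) r' (Finset.mem_insert_of_mem hr'))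
        (fun r K _ => ((Nat.card K : ℤ) ^ d r - (Nat.card K : ℤ) ^ d r₀) * N r K) (fun r hr => ?_)
        fun e => ?_
      · have := (hN r (Finset.mem_insert_of_mem hr)).poly (Polynomial.X ^ d r - Polynomial.X ^ d r₀)
        simp only [Polynomial.eval_sub, Polynomial.eval_pow, Polynomial.eval_X] at this
        exact this
      · refine h𝒞.congr (h𝒞.add (h (e + 1)) (h𝒞.neg (h𝒞.poly_mul (h e) (Polynomial.X ^ d r₀))))
          fun K _ _ _ => ?_
        rw [Polynomial.eval_pow, Polynomial.eval_X, Finset.sum_insert hr₀, Finset.sum_insert hr₀,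
          mul_add, Finset.mul_sum]
        have h2 : ∑ r ∈ s, ((Nat.card K : ℤ) ^ d r) ^ e *
            (((Nat.card K : ℤ) ^ d r - (Nat.card K : ℤ) ^ d r₀) * N r K) =
            ∑ r ∈ s, ((Nat.card K : ℤ) ^ d r) ^ (e + 1) * N r K -
              ∑ r ∈ s, (Nat.card K : ℤ) ^ d r₀ * (((Nat.card K : ℤ) ^ d r) ^ e * N r K) := by
          rw [← Finset.sum_sub_distrib]
          exact Finset.sum_congr rfl fun r _ => by ring
        rw [h2]
        ring
    have h3 : ∀ r ∈ s, 𝒞 (N r) := by
      intro r hr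
      refine div_diff h𝒞 (hN r (Finset.mem_insert_of_mem hr)) (a := d r) (b := d r₀) ?_ (h1 r hr)
      intro he
      have := hd r (Finset.mem_insert_of_mem hr) r₀ (Finset.mem_insert_self r₀ s) he
      exact hr₀ (this ▸ hr)
    intro r hr
    rcases Finset.mem_insert.1 hr with h4 | h4
    · subst h4
      refine h𝒞.congr (h𝒞.add (h 0) (h𝒞.neg (h𝒞.sum s h3))) fun K _ _ _ => ?_
      rw [Finset.sum_insert hr₀]
      simp
    · exact h3 r h4

end

section
variable {A C T : Type} [Fintype A] [Fintype C] [Fintype T]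

theorem wt_le (p : T → A × C) (e : ℕ) {K : Type} [Field K] [Finite K] (l : Matrix A C K) :
    wt p e l ≤ Nat.card K ^ (e * (Fintype.card A + Fintype.card C) + 2 * Fintype.card T) := by
  classical
  rw [← card_dcond, ← card_par]
  exact Finite.card_subtype_le _

theorem W_growth (p : T → A × C) (e : ℕ) (Z : A → C → Prop) : Growth (W p e Z) := by
  classical
  refine growth_of_le (n := Fintype.card A * Fintype.card C +
    (e * (Fintype.card A + Fintype.card C) + 2 * Fintype.card T)) fun K _ _ => ?_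
  have := Fintype.ofFinite K
  have h0 : 0 ≤ W p e Z K := by
    rw [W_eq]
    refine Finset.sum_nonneg fun l _ => ?_
    split_ifs <;> positivity
  rw [abs_of_nonneg (by exact_mod_cast h0), W_eq]
  have h1 : ∑ l : Matrix A C K, (if (∀ a c, Z a c → l a c = 0) then (wt p e l : ℤ) else 0) ≤
      ∑ _l : Matrix A C K, (Nat.card K : ℤ) ^ (e * (Fintype.card A + Fintype.card C) +
        2 * Fintype.card T) := by
    refine Finset.sum_le_sum fun l _ => ?_
    split_ifs
    · exact_mod_cast wt_le p e l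
    · positivity
  rw [Finset.sum_const, nsmul_eq_mul] at h1
  have h2 : (Finset.univ : Finset (Matrix A C K)).card = Nat.card K ^ (Fintype.card A * Fintype.card C) := by
    rw [Finset.card_univ, ← Nat.card_eq_fintype_card]
    show Nat.card (A → C → K) = _
    rw [Nat.card_fun, Nat.card_fun, Nat.card_eq_fintype_card (α := A),
      Nat.card_eq_fintype_card (α := C), ← pow_mul, mul_comm]
  rw [h2] at h1
  rw [pow_add]
  exact_mod_cast h1

/-- inclusion and exclusion -/
theorem W_split (p : T → A × C) (t₀ : A × C) (e : ℕ) (Z : A → C → Prop) (K : Type) [Field K]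
    [Finite K] :
    W (Sum.elim (fun _ : Unit => t₀) p) e Z K = W p e Z K +
      ((Nat.card K : ℤ) ^ 2 - 1) * W p e (fun a c => Z a c ∨ (a, c) = t₀) K := by
  classical
  have := Fintype.ofFinite K
  rw [W_eq, W_eq, W_eq, Finset.mul_sum, ← Finset.sum_add_distrib]
  refine Finset.sum_congr rfl fun l _ => ?_
  have hw : (wt (Sum.elim (fun _ : Unit => t₀) p) e l : ℤ) =
      (if l t₀.1 t₀.2 = 0 then (Nat.card K : ℤ) ^ 2 else 1) * wt p e l := by
    unfold wt
    rw [Fintype.prod_sum_type]
    simp only [Sum.elim_inl, Sum.elim_inr, Finset.univ_unique, Finset.prod_singleton]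
    push_cast
    split_ifs
    · ring
    · ring
  by_cases hZ : ∀ a c, Z a c → l a c = 0
  · rw [if_pos hZ, if_pos hZ, hw]
    by_cases ht : l t₀.1 t₀.2 = 0
    · rw [if_pos ht, if_pos]
      · ring
      · rintro a c (h | h)
        · exact hZ a c h
        · rw [← h] at ht; exact ht
    · rw [if_neg ht, if_neg]
      · ring
      · intro h
        exact ht (h t₀.1 t₀.2 (Or.inr rfl))
  · rw [if_neg hZ, if_neg hZ, if_neg fun h => hZ fun a c hac => h a c (Or.inl hac)]
    ring

theorem W_ranks (e : ℕ) (Z : A → C → Prop) (K : Type) [Field K] [Finite K] :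
    W (T := Empty) (fun t => t.elim : Empty → A × C) e Z K =
      ∑ r ∈ Finset.range (min (Fintype.card A) (Fintype.card C) + 1),
        ((Nat.card K : ℤ) ^ (Fintype.card A + Fintype.card C - 2 * r)) ^ e * (rkN Z r K : ℤ) := by
  classical
  have := Fintype.ofFinite K
  rw [W_eq]
  have hr : ∀ l : Matrix A C K, l.rank ∈ Finset.range (min (Fintype.card A) (Fintype.card C) + 1) := by
    intro l
    rw [Finset.mem_range]
    have h1 := l.rank_le_card_height
    have h2 := l.rank_le_card_width
    omega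
  rw [← Finset.sum_fiberwise_of_maps_to (fun l _ => hr l)]
  refine Finset.sum_congr rfl fun r _ => ?_
  have h1 : ∀ l ∈ Finset.univ.filter (fun l : Matrix A C K => l.rank = r),
      (if (∀ a c, Z a c → l a c = 0) then (wt (fun t => t.elim : Empty → A × C) e l : ℤ) else 0) =
      ((Nat.card K : ℤ) ^ (Fintype.card A + Fintype.card C - 2 * r)) ^ e *
        (if (∀ a c, Z a c → l a c = 0) then 1 else 0) := by
    intro l hl
    have hl' : l.rank = r := (Finset.mem_filter.1 hl).2
    have h2 := l.rank_le_card_height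
    have h3 := l.rank_le_card_width
    split_ifs
    · unfold wt
      rw [Fintype.prod_empty, mul_one, mul_one, ← pow_add, hl']
      push_cast
      congr 2
      omega
    · rw [mul_zero]
  rw [Finset.sum_congr rfl h1, ← Finset.mul_sum]
  congr 1
  rw [Finset.sum_ite, Finset.sum_const_zero, add_zero, Finset.sum_const, nsmul_eq_mul, mul_one,
    Finset.filter_filter]
  unfold rkN
  rw [Nat.card_eq_fintype_card, Fintype.card_subtype]

end

section
variable {P : ℕ} {𝒞 : ((K : Type) → [Field K] → ℤ) → Prop} (h𝒞 : ClosedClass P 𝒞)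
include h𝒞

/-- from the commuting pairs to the sums of weights -/
theorem W_of_comm (h : ∀ (ι : Type) [Fintype ι] [DecidableEq ι] (R : ι → ι → Prop),
      IsStrictOrder ι R → (∀ a b c d, ¬ (R a b ∧ R b c ∧ R c d)) → 𝒞 (fun K _ => (commN R K : ℤ)))
    {A C T : Type} [Fintype A] [Fintype C] [Fintype T] [DecidableEq A] [DecidableEq C]
    [DecidableEq T] (p : T → A × C) (e : ℕ) : 𝒞 (W p e fun _ _ => False) := by
  refine h𝒞.div (W_growth p e _) (Polynomial.X ^ (2 * (Fintype.card A * Fintype.card C) +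
        (e * (Fintype.card A + Fintype.card C) + 2 * Fintype.card T))) (Den.X.pow _) ?_
  refine h𝒞.congr (h𝒞.poly_mul (h (Ix A C T e) (rel p) (rel_order p) (rel_height p))
    (Polynomial.X ^ (Fintype.card A * Fintype.card C))) fun K _ _ _ => ?_
  rw [Polynomial.eval_pow, Polynomial.eval_X, Polynomial.eval_pow, Polynomial.eval_X, mul_comm,
    comm_count]

theorem W_all (h : ∀ (ι : Type) [Fintype ι] [DecidableEq ι] (R : ι → ι → Prop),
      IsStrictOrder ι R → (∀ a b c d, ¬ (R a b ∧ R b c ∧ R c d)) → 𝒞 (fun K _ => (commN R K : ℤ)))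
    {A C : Type} [Fintype A] [Fintype C] [DecidableEq A] [DecidableEq C] (e : ℕ)
    (S : Finset (A × C)) : ∀ (T : Type) [Fintype T] [DecidableEq T] (p : T → A × C),
      𝒞 (W p e fun a c => (a, c) ∈ S) := by
  induction S using Finset.induction_on with
  | empty =>
    intro T _ _ p
    refine h𝒞.congr (W_of_comm h𝒞 h p e) fun K _ _ _ => ?_
    simp
  | insert t₀ S _ ih =>
    intro T _ _ p
    refine h𝒞.div (W_growth p e _) (Polynomial.X ^ 2 - 1) (.cyc 2 two_pos) ?_
    refine h𝒞.congr (h𝒞.add (ih (Unit ⊕ T) (Sum.elim (fun _ => t₀) p)) (h𝒞.neg (ih T p)))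
      fun K _ _ _ => ?_
    rw [W_split]
    have h1 : (fun (a : A) (c : C) => (a, c) ∈ insert t₀ S) = fun a c => (a, c) ∈ S ∨ (a, c) = t₀ := by
      ext a c
      rw [Finset.mem_insert, or_comm]
    rw [h1]
    simp

/-- **The numbers of matrices of given rank with prescribed zeros from the class numbers of the
pattern groups of height three.** -/
theorem rk_of_comm (h : ∀ (ι : Type) [Fintype ι] [DecidableEq ι] (R : ι → ι → Prop),
      IsStrictOrder ι R → (∀ a b c d, ¬ (R a b ∧ R b c ∧ R c d)) → 𝒞 (fun K _ => (commN R K : ℤ)))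
    (r : ℕ) (A C : Type) [Fintype A] [Fintype C] (Z : A → C → Prop) : 𝒞 (fun K _ => (rkN Z r K : ℤ)) := by
  classical
  by_cases hr : r ≤ min (Fintype.card A) (Fintype.card C)
  · have h1 : ∀ e, 𝒞 (fun K _ => ∑ r ∈ Finset.range (min (Fintype.card A) (Fintype.card C) + 1),
        ((Nat.card K : ℤ) ^ (Fintype.card A + Fintype.card C - 2 * r)) ^ e * (rkN Z r K : ℤ)) := by
      intro e
      refine h𝒞.congr (W_all h𝒞 h e (Finset.univ.filter fun t : A × C => Z t.1 t.2) Empty
        (fun t => t.elim)) fun K _ _ _ => ?_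
      rw [← W_ranks]
      simp
    refine elimination h𝒞 (fun r => Fintype.card A + Fintype.card C - 2 * r) _ ?_
      (fun r K _ => (rkN Z r K : ℤ)) (fun r _ => rkN_growth Z r) h1 r
      (Finset.mem_range.2 (by omega))
    intro r hr r' hr' he
    rw [Finset.mem_range] at hr hr'
    have he' : Fintype.card A + Fintype.card C - 2 * r = Fintype.card A + Fintype.card C - 2 * r' := he
    omega
  · refine h𝒞.congr h𝒞.zero fun K _ _ _ => ?_
    unfold rkN
    have : IsEmpty {l : Matrix A C K // l.rank = r ∧ ∀ i j, Z i j → l i j = 0} := by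
      constructor
      rintro ⟨l, hl, _⟩
      have h2 := l.rank_le_card_height
      have h3 := l.rank_le_card_width
      omega
    rw [Nat.card_of_isEmpty]
    rfl

/-- all the systems of equations from the commuting pairs -/
theorem points_of_comm (h : ∀ (ι : Type) [Fintype ι] [DecidableEq ι] (R : ι → ι → Prop),
      IsStrictOrder ι R → (∀ a b c d, ¬ (R a b ∧ R b c ∧ R c d)) → 𝒞 (fun K _ => (commN R K : ℤ)))
    {n s : ℕ} (f : Fin s → MvPolynomial (Fin n) ℤ) : 𝒞 (fun K _ => (points f K : ℤ)) :=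
  all_continue h𝒞 (zn_three h𝒞 (le_refl 3) (zn_all h𝒞 (rk_of_comm h𝒞 h 3))) f

end

end Pool.Agent.Helper90.PG
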