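import Pool.Agent.Helper90.PG.Elim

/-!
# Class numbers of pattern groups and the numbers of solutions of systems of equations
-/

set_option autoImplicit false

namespace Pool.Agent.Helper90.PG

open Matrix Module Pool.Agent.Helper90.PZ Pool.Agent.E8helper17.FZ

section
variable {ι ι' : Type} [Fintype ι] [DecidableEq ι] [Fintype ι'] [DecidableEq ι']

theorem commN_congr (e : ι ≃ ι') (R : ι → ι → Prop) (K : Type) [Field K] :
    commN R K = commN (fun i j => R (e.symm i) (e.symm j)) K := by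
  unfold commN
  let E : Matrix ι ι K ≃ Matrix ι' ι' K := Matrix.reindex e e
  have hS : ∀ X : Matrix ι ι K, Supp R X ↔ Supp (fun i j => R (e.symm i) (e.symm j)) (E X) := by
    intro X
    constructor
    · intro h i j hij
      exact h _ _ hij
    · intro h i j hij
      have h1 := h (e i) (e j) (by
        show ¬ R (e.symm (e i)) (e.symm (e j))
        rw [e.symm_apply_apply, e.symm_apply_apply]
        exact hij)
      have h2 : E X (e i) (e j) = X i j := by
        show X (e.symm (e i)) (e.symm (e j)) = X i j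
        rw [e.symm_apply_apply, e.symm_apply_apply]
      rw [h2] at h1
      exact h1
  have hM : ∀ X Y : Matrix ι ι K, E (X * Y) = E X * E Y := by
    intro X Y
    exact (Matrix.reindexAlgEquiv K K e).map_mul X Y
  refine Nat.card_congr ((E.prodCongr E).subtypeEquiv fun p => ?_)
  show _ ↔ (Supp _ (E p.1) ∧ Supp _ (E p.2)) ∧ E p.1 * E p.2 = E p.2 * E p.1
  rw [← hS, ← hS, ← hM, ← hM]
  exact and_congr_right fun _ => E.injective.eq_iff.symm

end

/-- the class number of the pattern group of a strict order on `Fin N` -/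
noncomputable def cls {N : ℕ} (R : Fin N → Fin N → Prop) (hR : IsStrictOrder (Fin N) R) (K : Type)
    [Field K] : ℤ := (Nat.card (ConjClasses (patternGroup R hR K)) : ℤ)

theorem cls_growth {N : ℕ} (R : Fin N → Fin N → Prop) (hR : IsStrictOrder (Fin N) R) :
    Growth (cls R hR) := by
  refine growth_of_le (n := Nat.card {p : Fin N × Fin N // R p.1 p.2}) fun K _ _ => ?_
  unfold cls
  rw [abs_of_nonneg (by positivity)]
  have hf : Finite (patternGroup R hR K) := Finite.of_equiv _ (pgEquiv hR K).symm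
  have h1 : Nat.card (ConjClasses (patternGroup R hR K)) ≤ Nat.card (patternGroup R hR K) :=
    Nat.card_le_card_of_surjective _ ConjClasses.mk_surjective
  rw [Nat.card_congr (pgEquiv hR K), card_supp] at h1
  exact_mod_cast h1

section
variable {P : ℕ} {𝒞 : ((K : Type) → [Field K] → ℤ) → Prop} (h𝒞 : ClosedClass P 𝒞)
include h𝒞

theorem comm_of_cls (h : ∀ (N : ℕ) (R : Fin N → Fin N → Prop) (hR : IsStrictOrder (Fin N) R),
      (∀ a b c d, ¬ (R a b ∧ R b c ∧ R c d)) → 𝒞 (cls R hR))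
    (ι : Type) [Fintype ι] [DecidableEq ι] (R : ι → ι → Prop) (hR : IsStrictOrder ι R)
    (h3 : ∀ a b c d, ¬ (R a b ∧ R b c ∧ R c d)) : 𝒞 (fun K _ => (commN R K : ℤ)) := by
  let e := Fintype.equivFin ι
  have hR' : IsStrictOrder (Fin (Fintype.card ι)) (fun i j => R (e.symm i) (e.symm j)) :=
    { irrefl := fun i => hR.toIrrefl.irrefl _
      trans := fun i j k h h' => hR.toIsTrans.trans _ _ _ h h' }
  have h1 := h _ _ hR' fun a b c d => h3 _ _ _ _
  refine h𝒞.congr (h𝒞.poly_mul h1 (Polynomial.X ^ Nat.card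
    {p : Fin (Fintype.card ι) × Fin (Fintype.card ι) // R (e.symm p.1) (e.symm p.2)}))
    fun K _ _ _ => ?_
  rw [commN_congr e, ← class_number hR' K, Polynomial.eval_pow, Polynomial.eval_X]
  unfold cls
  push_cast
  ring

theorem cls_of_points (h : ∀ (n r : ℕ) (f : Fin r → MvPolynomial (Fin n) ℤ),
      𝒞 (fun K _ => (points f K : ℤ)))
    {N : ℕ} (R : Fin N → Fin N → Prop) (hR : IsStrictOrder (Fin N) R) : 𝒞 (cls R hR) := by
  classical
  let X : Matrix (Fin N) (Fin N) (MvPolynomial ((Fin N × Fin N) ⊕ (Fin N × Fin N)) ℤ) :=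
    Matrix.of fun i j => MvPolynomial.X (Sum.inl (i, j))
  let Y : Matrix (Fin N) (Fin N) (MvPolynomial ((Fin N × Fin N) ⊕ (Fin N × Fin N)) ℤ) :=
    Matrix.of fun i j => MvPolynomial.X (Sum.inr (i, j))
  let f : (Fin N × Fin N) ⊕ ({p : Fin N × Fin N // ¬ R p.1 p.2} ⊕ {p : Fin N × Fin N // ¬ R p.1 p.2}) →
      MvPolynomial ((Fin N × Fin N) ⊕ (Fin N × Fin N)) ℤ :=
    Sum.elim (fun p => (X * Y - Y * X) p.1 p.2)
      (Sum.elim (fun p => MvPolynomial.X (Sum.inl p.1)) (fun p => MvPolynomial.X (Sum.inr p.1)))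
  refine h𝒞.div (cls_growth R hR) (Polynomial.X ^ Nat.card {p : Fin N × Fin N // R p.1 p.2})
    (Den.X.pow _) (h𝒞.congr (points_any h𝒞 h f) fun K _ _ _ => ?_)
  have h1 := class_number hR K
  rw [Polynomial.eval_pow, Polynomial.eval_X]
  have h2 : (Nat.card K : ℤ) ^ Nat.card {p : Fin N × Fin N // R p.1 p.2} * cls R hR K =
      (commN R K : ℤ) := by
    rw [← h1]
    unfold cls
    push_cast
    ring
  rw [h2]
  unfold points commN
  congr 1
  let E : ((Fin N × Fin N) ⊕ (Fin N × Fin N) → K) ≃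
      Matrix (Fin N) (Fin N) K × Matrix (Fin N) (Fin N) K :=
    (Equiv.sumArrowEquivProdArrow _ _ K).trans ((Equiv.curry _ _ K).prodCongr (Equiv.curry _ _ K))
  refine Nat.card_congr (E.subtypeEquiv fun x => ?_)
  have hX : ∀ i j, MvPolynomial.aeval x (X i j) = (E x).1 i j := fun i j =>
    MvPolynomial.aeval_X _ _
  have hY : ∀ i j, MvPolynomial.aeval x (Y i j) = (E x).2 i j := fun i j =>
    MvPolynomial.aeval_X _ _
  have hXY : ∀ i j, MvPolynomial.aeval x ((X * Y - Y * X) i j) =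
      ((E x).1 * (E x).2 - (E x).2 * (E x).1) i j := by
    intro i j
    rw [Matrix.sub_apply, Matrix.sub_apply, Matrix.mul_apply, Matrix.mul_apply, Matrix.mul_apply,
      Matrix.mul_apply, map_sub, map_sum, map_sum]
    simp only [map_mul, hX, hY]
  constructor
  · intro h
    refine ⟨⟨fun i j hij => ?_, fun i j hij => ?_⟩, ?_⟩
    · have := h (Sum.inr (Sum.inl ⟨(i, j), hij⟩))
      simp only [f, Sum.elim_inr, Sum.elim_inl, MvPolynomial.aeval_X] at this
      exact this
    · have := h (Sum.inr (Sum.inr ⟨(i, j), hij⟩))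
      simp only [f, Sum.elim_inr, MvPolynomial.aeval_X] at this
      exact this
    · rw [← sub_eq_zero]
      ext i j
      have := h (Sum.inl (i, j))
      simp only [f, Sum.elim_inl, hXY] at this
      exact this
  · rintro ⟨⟨h1, h2⟩, h3⟩ (p | p | p)
    · simp only [f, Sum.elim_inl, hXY]
      rw [sub_eq_zero.2 h3]
      rfl
    · simp only [f, Sum.elim_inr, Sum.elim_inl, MvPolynomial.aeval_X]
      exact h1 _ _ p.2
    · simp only [f, Sum.elim_inr, MvPolynomial.aeval_X]
      exact h2 _ _ p.2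

/-- **The circle of implications.** -/
theorem tfae_cls : List.TFAE [
    ∀ (n s : ℕ) (f : Fin s → MvPolynomial (Fin n) ℤ), 𝒞 (fun K _ => (points f K : ℤ)),
    ∀ (N : ℕ) (R : Fin N → Fin N → Prop) (hR : IsStrictOrder (Fin N) R), 𝒞 (cls R hR),
    ∀ (N : ℕ) (R : Fin N → Fin N → Prop) (hR : IsStrictOrder (Fin N) R),
      (∀ a b c d, ¬ (R a b ∧ R b c ∧ R c d)) → 𝒞 (cls R hR)] := by
  tfae_have 1 → 2 := fun h N R hR => cls_of_points h𝒞 h R hR
  tfae_have 2 → 3 := fun h N R hR _ => h N R hR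
  tfae_have 3 → 1 := fun h n s f => points_of_comm h𝒞 (comm_of_cls h𝒞 h) f
  tfae_finish

end

/-- The functions `N` with `B(q) N(K) = ∑ i, A i (q) * F (j i) K`, with `B` of the form
`q ^ a ∏ (q ^ b - 1)`. -/
def Gen {J : Type} (F : J → (K : Type) → [Field K] → ℤ) (N : (K : Type) → [Field K] → ℤ) : Prop :=
  ∃ (B : Polynomial ℤ) (ι : Type) (_ : Fintype ι) (A : ι → Polynomial ℤ) (j : ι → J), Den B ∧
    ∀ (K : Type) [Field K] [Finite K],
      B.eval (Nat.card K : ℤ) * N K = ∑ i, (A i).eval (Nat.card K : ℤ) * F (j i) K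

theorem Gen.of {J : Type} (F : J → (K : Type) → [Field K] → ℤ) (j : J) : Gen F (F j) :=
  ⟨1, Unit, inferInstance, fun _ => 1, fun _ => j, .one, fun K _ _ => by simp⟩

theorem closed_gen' {J : Type} (F : J → (K : Type) → [Field K] → ℤ) : ClosedClass 0 (Gen F) where
  congr := by
    rintro N N' ⟨B, ι, _, A, k, hB, h⟩ he
    exact ⟨B, ι, inferInstance, A, k, hB, fun K _ _ => by rw [← he K (ringChar_pos K), h]⟩
  zero := ⟨1, Empty, inferInstance, Empty.elim, Empty.elim, .one, fun K _ _ => by simp⟩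
  add := by
    rintro N N' ⟨B, ι, _, A, k, hB, h⟩ ⟨B', ι', _, A', k', hB', h'⟩
    refine ⟨B * B', ι ⊕ ι', inferInstance, Sum.elim (fun i => B' * A i) (fun i => B * A' i),
      Sum.elim k k', .mul hB hB', fun K _ _ => ?_⟩
    rw [Fintype.sum_sum_type]
    simp only [Sum.elim_inl, Sum.elim_inr, Polynomial.eval_mul]
    have e1 := h K
    have e2 := h' K
    simp_rw [mul_assoc, ← Finset.mul_sum]
    rw [← e1, ← e2]
    ring
  neg := by
    rintro N ⟨B, ι, _, A, k, hB, h⟩
    refine ⟨B, ι, inferInstance, fun i => - A i, k, hB, fun K _ _ => ?_⟩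
    rw [mul_neg, h K, ← Finset.sum_neg_distrib]
    refine Finset.sum_congr rfl fun i _ => ?_
    rw [Polynomial.eval_neg]
    ring
  poly_mul := by
    rintro N ⟨B, ι, _, A, k, hB, h⟩ C
    refine ⟨B, ι, inferInstance, fun i => C * A i, k, hB, fun K _ _ => ?_⟩
    rw [mul_left_comm, h K, Finset.mul_sum]
    refine Finset.sum_congr rfl fun i _ => ?_
    rw [Polynomial.eval_mul]
    ring
  div := by
    rintro N - C hC ⟨B, ι, _, A, k, hB, h⟩
    refine ⟨B * C, ι, inferInstance, A, k, .mul hB hC, fun K _ _ => ?_⟩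
    rw [Polynomial.eval_mul, mul_assoc, h K]

theorem Gen.formula {J : Type} {F : J → (K : Type) → [Field K] → ℤ} {N : (K : Type) → [Field K] → ℤ}
    (h : Gen F N) : ∃ (a t m : ℕ) (b : Fin t → ℕ) (A : Fin m → Polynomial ℤ) (j : Fin m → J),
      (∀ j, 0 < b j) ∧ ∀ (K : Type) [Field K] [Finite K],
        ((Nat.card K : ℤ) ^ a * ∏ j, ((Nat.card K : ℤ) ^ b j - 1)) * N K =
          ∑ i, (A i).eval (Nat.card K : ℤ) * F (j i) K := by
  obtain ⟨B, ι, _, A, k, hB, h⟩ := h
  obtain ⟨a, t, b, hb, rfl⟩ := hB.form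
  let e := Fintype.equivFin ι
  refine ⟨a, t, Fintype.card ι, b, fun i => A (e.symm i), fun i => k (e.symm i), hb,
    fun K _ _ => ?_⟩
  have h2 := h K
  rw [Polynomial.eval_mul, Polynomial.eval_pow, Polynomial.eval_X, Polynomial.eval_prod] at h2
  simp only [Polynomial.eval_sub, Polynomial.eval_pow, Polynomial.eval_X, Polynomial.eval_one] at h2
  rw [h2]
  exact (Equiv.sum_comp e.symm fun i => (A i).eval (Nat.card K : ℤ) * F (k i) K).symm

/-- a strict partial order of height at most three on `{0, ..., N - 1}` -/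
structure Pos3 where
  N : ℕ
  R : Fin N → Fin N → Prop
  hR : IsStrictOrder (Fin N) R
  h3 : ∀ a b c d, ¬ (R a b ∧ R b c ∧ R c d)

/-- **Every number of solutions is expressed by class numbers of pattern groups.** -/
theorem points_formula' {n s : ℕ} (f : Fin s → MvPolynomial (Fin n) ℤ) :
    ∃ (a t m : ℕ) (b : Fin t → ℕ) (A : Fin m → Polynomial ℤ) (j : Fin m → Pos3), (∀ j, 0 < b j) ∧
      ∀ (K : Type) [Field K] [Finite K],
        ((Nat.card K : ℤ) ^ a * ∏ j, ((Nat.card K : ℤ) ^ b j - 1)) * (points f K : ℤ) =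
          ∑ i, (A i).eval (Nat.card K : ℤ) * cls (j i).R (j i).hR K := by
  have h0 : (∀ (N : ℕ) (R : Fin N → Fin N → Prop) (hR : IsStrictOrder (Fin N) R),
      (∀ a b c d, ¬ (R a b ∧ R b c ∧ R c d)) → Gen (fun j : Pos3 => cls j.R j.hR) (cls R hR)) →
      ∀ (n s : ℕ) (f : Fin s → MvPolynomial (Fin n) ℤ),
        Gen (fun j : Pos3 => cls j.R j.hR) (fun K _ => (points f K : ℤ)) :=
    ((tfae_cls (closed_gen' fun j : Pos3 => cls j.R j.hR)).out 2 0).1
  exact (h0 (fun N R hR h3 => Gen.of (fun j : Pos3 => cls j.R j.hR) ⟨N, R, hR, h3⟩) n s f).formula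

/-- height two: the pattern group is abelian -/
theorem cls_two {N : ℕ} (R : Fin N → Fin N → Prop) (hR : IsStrictOrder (Fin N) R)
    (h2 : ∀ a b c, ¬ (R a b ∧ R b c)) (K : Type) [Field K] [Finite K] :
    Nat.card (ConjClasses (patternGroup R hR K)) =
      Nat.card K ^ Nat.card {p : Fin N × Fin N // R p.1 p.2} := by
  have h1 := class_number hR K
  have h3 : commN R K = Nat.card {X : Matrix (Fin N) (Fin N) K // Supp R X} *
      Nat.card {X : Matrix (Fin N) (Fin N) K // Supp R X} := by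
    rw [← Nat.card_prod]
    unfold commN
    have hz : ∀ X Y : Matrix (Fin N) (Fin N) K, Supp R X → Supp R Y → X * Y = 0 := by
      intro X Y hX hY
      ext i j
      rw [mul_apply, Matrix.zero_apply]
      refine Finset.sum_eq_zero fun k _ => ?_
      by_cases hik : R i k
      · rw [hY k j fun h => h2 i k j ⟨hik, h⟩, mul_zero]
      · rw [hX i k hik, zero_mul]
    exact Nat.card_congr
      { toFun := fun p => (⟨p.1.1, p.2.1.1⟩, ⟨p.1.2, p.2.1.2⟩)
        invFun := fun p => ⟨(p.1.1, p.2.1), ⟨p.1.2, p.2.2⟩, by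
          show p.1.1 * p.2.1 = p.2.1 * p.1.1
          rw [hz _ _ p.1.2 p.2.2, hz _ _ p.2.2 p.1.2]⟩
        left_inv := fun p => rfl
        right_inv := fun p => rfl }
  rw [h3, card_supp] at h1
  have hpos : 0 < Nat.card K ^ Nat.card {p : Fin N × Fin N // R p.1 p.2} :=
    Nat.pow_pos Nat.card_pos
  exact Nat.eq_of_mul_eq_mul_right hpos h1

end Pool.Agent.Helper90.PG
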