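import Pool.Agent.Helper90.PZ.Main

/-!
# Pattern groups of finite partially ordered sets and their class numbers
-/

set_option autoImplicit false

namespace Pool.Agent.Helper90.PG

open Matrix

section
variable {ι : Type} [Fintype ι] [DecidableEq ι]

/-- for a strict order on a finite set: a property holds everywhere if it holds at `i` whenever it
holds at all the larger elements -/
theorem up_induction {R : ι → ι → Prop} (hR : IsStrictOrder ι R) {p : ι → Prop}
    (h : ∀ i, (∀ k, R i k → p k) → p i) (i : ι) : p i := by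
  have : IsTrans ι (fun a b => R b a) := ⟨fun a b c h1 h2 => hR.toIsTrans.trans _ _ _ h2 h1⟩
  have : Std.Irrefl (fun a b => R b a) := ⟨fun a => hR.toIrrefl.irrefl a⟩
  have hw := Finite.wellFounded_of_trans_of_irrefl (fun a b : ι => R b a)
  induction i using hw.induction with
  | _ i ih => exact h i fun k hk => ih k hk

theorem inv_pattern {R : ι → ι → Prop} (hR : IsStrictOrder ι R) {K : Type} [Field K]
    {A B : Matrix ι ι K} (hA : ∀ i j, ¬ R i j → A i j = (1 : Matrix ι ι K) i j) (hAB : A * B = 1) :
    ∀ i j, ¬ R i j → B i j = (1 : Matrix ι ι K) i j := by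
  have irr : ∀ a, ¬ R a a := fun a => hR.toIrrefl.irrefl a
  have tr : ∀ a b c, R a b → R b c → R a c := fun a b c h1 h2 => hR.toIsTrans.trans _ _ _ h1 h2
  have hexp : ∀ i j, B i j + ∑ k ∈ Finset.univ.erase i, A i k * B k j = (1 : Matrix ι ι K) i j := by
    intro i j
    have h1 : (A * B) i j = (1 : Matrix ι ι K) i j := by rw [hAB]
    rw [mul_apply, ← Finset.add_sum_erase _ _ (Finset.mem_univ i), hA i i (irr i), one_apply_eq,
      one_mul] at h1
    exact h1
  have off : ∀ j i, i ≠ j → ¬ R i j → B i j = 0 := by
    intro j i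
    induction i using up_induction hR with
    | h i ih =>
      intro hij hn
      have h1 := hexp i j
      rw [one_apply_ne hij, Finset.sum_eq_zero (fun k hk => ?_), add_zero] at h1
      · exact h1
      · have hki : i ≠ k := (Finset.ne_of_mem_erase hk).symm
        by_cases hik : R i k
        · rw [ih k hik (fun h => hn (h ▸ hik)) (fun h => hn (tr _ _ _ hik h)), mul_zero]
        · rw [hA i k hik, one_apply_ne hki, zero_mul]
  intro i j hn
  by_cases hij : i = j
  · subst hij
    have h1 := hexp i i
    rw [Finset.sum_eq_zero (fun k hk => ?_), add_zero] at h1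
    · exact h1
    · have hki : i ≠ k := (Finset.ne_of_mem_erase hk).symm
      by_cases hik : R i k
      · rw [off i k hki.symm (fun h => irr _ (tr _ _ _ hik h)), mul_zero]
      · rw [hA i k hik, one_apply_ne hki, zero_mul]
  · rw [one_apply_ne hij]
    exact off j i hij hn

/-- **The pattern group** of a strict partial order `R` on a finite set over a field `K`: the matrices
with ones on the diagonal and with zeros at all the other positions `(i, j)` such that not `R i j`. -/
def patternGroup (R : ι → ι → Prop) (hR : IsStrictOrder ι R) (K : Type) [Field K] : Subgroup (GL ι K) where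
  carrier := {A | ∀ i j, ¬ R i j → (A : Matrix ι ι K) i j = (1 : Matrix ι ι K) i j}
  one_mem' := fun _ _ _ => rfl
  mul_mem' := by
    intro A B hA hB i j hn
    have irr : ∀ a, ¬ R a a := fun a => hR.toIrrefl.irrefl a
    have tr : ∀ a b c, R a b → R b c → R a c := fun a b c h1 h2 => hR.toIsTrans.trans _ _ _ h1 h2
    show ((A : Matrix ι ι K) * (B : Matrix ι ι K)) i j = (1 : Matrix ι ι K) i j
    rw [mul_apply, ← Finset.add_sum_erase _ _ (Finset.mem_univ i), hA i i (irr i), one_apply_eq,
      one_mul, hB i j hn, Finset.sum_eq_zero (fun k hk => ?_), add_zero]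
    have hki : i ≠ k := (Finset.ne_of_mem_erase hk).symm
    by_cases hik : R i k
    · by_cases hkj : R k j
      · exact absurd (tr _ _ _ hik hkj) hn
      · have hkj' : k ≠ j := fun h => hn (h.symm ▸ hik : R i j)
        rw [hB k j hkj, one_apply_ne hkj', mul_zero]
    · rw [hA i k hik, one_apply_ne hki, zero_mul]
  inv_mem' := by
    intro A hA
    refine inv_pattern hR hA ?_
    have := congrArg (fun u : GL ι K => (u : Matrix ι ι K)) (mul_inv_cancel A)
    exact this

/-- the matrices supported on `R` -/
def Supp (R : ι → ι → Prop) {K : Type} [Field K] (X : Matrix ι ι K) : Prop := ∀ i j, ¬ R i j → X i j = 0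

theorem isUnit_one_add {R : ι → ι → Prop} (hR : IsStrictOrder ι R) {K : Type} [Field K]
    {X : Matrix ι ι K} (hX : Supp R X) : IsUnit (1 + X) := by
  rw [← mulVec_injective_iff_isUnit]
  intro v w hvw
  have h0 : (1 + X) *ᵥ (v - w) = 0 := by
    have : (1 + X) *ᵥ v = (1 + X) *ᵥ w := hvw
    rw [mulVec_sub, this, sub_self]
  have h1 : ∀ i, (v - w) i = 0 := by
    intro i
    induction i using up_induction hR with
    | h i ih =>
      have h2 := congrFun h0 i
      rw [add_mulVec, one_mulVec, Pi.add_apply, Pi.zero_apply] at h2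
      have h3 : (X *ᵥ (v - w)) i = 0 := by
        rw [mulVec, dotProduct]
        refine Finset.sum_eq_zero fun k _ => ?_
        by_cases hik : R i k
        · rw [ih k hik, mul_zero]
        · rw [hX i k hik, zero_mul]
      rw [h3, add_zero] at h2
      exact h2
  exact sub_eq_zero.1 (funext h1)

/-- the pattern group and the matrices supported on `R` -/
noncomputable def pgEquiv {R : ι → ι → Prop} (hR : IsStrictOrder ι R) (K : Type) [Field K] :
    patternGroup R hR K ≃ {X : Matrix ι ι K // Supp R X} where
  toFun A := ⟨(A.1 : Matrix ι ι K) - 1, fun i j h => by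
    rw [Matrix.sub_apply, A.2 i j h, sub_self]⟩
  invFun X := ⟨(isUnit_one_add hR X.2).unit, fun i j h => by
    show ((1 : Matrix ι ι K) + X.1) i j = _
    rw [Matrix.add_apply, X.2 i j h, add_zero]⟩
  left_inv A := by
    apply Subtype.ext
    apply Units.ext
    show (1 : Matrix ι ι K) + ((A.1 : Matrix ι ι K) - 1) = _
    rw [add_sub_cancel]
  right_inv X := by
    apply Subtype.ext
    show ((1 : Matrix ι ι K) + X.1) - 1 = X.1
    rw [add_sub_cancel_left]

/-- the number of commuting pairs of matrices supported on `R` -/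
noncomputable def commN (R : ι → ι → Prop) (K : Type) [Field K] : ℕ :=
  Nat.card {p : Matrix ι ι K × Matrix ι ι K // (Supp R p.1 ∧ Supp R p.2) ∧ p.1 * p.2 = p.2 * p.1}

theorem card_supp (R : ι → ι → Prop) (K : Type) [Field K] [Finite K] :
    Nat.card {X : Matrix ι ι K // Supp R X} = Nat.card K ^ Nat.card {p : ι × ι // R p.1 p.2} := by
  classical
  have e : {X : Matrix ι ι K // Supp R X} ≃ ({p : ι × ι // R p.1 p.2} → K) :=
    { toFun := fun X p => X.1 p.1.1 p.1.2
      invFun := fun f => ⟨fun i j => if h : R i j then f ⟨(i, j), h⟩ else 0, fun i j h => dif_neg h⟩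
      left_inv := fun X => by
        apply Subtype.ext
        ext i j
        show (if h : R i j then X.1 i j else 0) = X.1 i j
        split_ifs with h
        · rfl
        · exact (X.2 i j h).symm
      right_inv := fun f => by
        ext p
        show (if h : R p.1.1 p.1.2 then f ⟨(p.1.1, p.1.2), h⟩ else 0) = f p
        rw [dif_pos p.2] }
  rw [Nat.card_congr e, Nat.card_fun]

/-- **The class number of a pattern group and the commuting pairs.** -/
theorem class_number {R : ι → ι → Prop} (hR : IsStrictOrder ι R) (K : Type) [Field K] [Finite K] :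
    Nat.card (ConjClasses (patternGroup R hR K)) * Nat.card K ^ Nat.card {p : ι × ι // R p.1 p.2} =
      commN R K := by
  rw [← card_supp, ← Nat.card_congr (pgEquiv hR K), ← card_comm_eq_card_conjClasses_mul_card]
  unfold commN
  refine Nat.card_congr ?_
  let e := pgEquiv hR K
  have hc : ∀ A B : patternGroup R hR K, Commute A B ↔ (e A).1 * (e B).1 = (e B).1 * (e A).1 := by
    intro A B
    have h1 : Commute A B ↔ (A.1 : Matrix ι ι K) * (B.1 : Matrix ι ι K) =
        (B.1 : Matrix ι ι K) * (A.1 : Matrix ι ι K) := by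
      rw [commute_iff_eq, Subtype.ext_iff, Units.ext_iff]
      rfl
    rw [h1]
    have e1 : (e A).1 = (A.1 : Matrix ι ι K) - 1 := rfl
    have e2 : (e B).1 = (B.1 : Matrix ι ι K) - 1 := rfl
    rw [e1, e2]
    constructor
    · intro h
      have h3 : ∀ A B : Matrix ι ι K, (A - 1) * (B - 1) = A * B - A - B + 1 := by
        intro A B; noncomm_ring
      rw [h3, h3, h, sub_right_comm]
    · intro h
      have h2 : ((A.1 : Matrix ι ι K) - 1) * ((B.1 : Matrix ι ι K) - 1) + (A.1 : Matrix ι ι K) +
          (B.1 : Matrix ι ι K) - 1 = ((B.1 : Matrix ι ι K) - 1) * ((A.1 : Matrix ι ι K) - 1) +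
          (A.1 : Matrix ι ι K) + (B.1 : Matrix ι ι K) - 1 := by rw [h]
      have h3 : ∀ A B : Matrix ι ι K, (A - 1) * (B - 1) + A + B - 1 = A * B := by
        intro A B; noncomm_ring
      rw [h3, add_right_comm, h3] at h2
      exact h2
  exact
    { toFun := fun p => ⟨((e p.1.1).1, (e p.1.2).1), ⟨(e p.1.1).2, (e p.1.2).2⟩, (hc _ _).1 p.2⟩
      invFun := fun p => ⟨(e.symm ⟨p.1.1, p.2.1.1⟩, e.symm ⟨p.1.2, p.2.1.2⟩), by
        rw [hc, e.apply_symm_apply, e.apply_symm_apply]
        exact p.2.2⟩
      left_inv := fun p => by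
        apply Subtype.ext
        exact Prod.ext (e.symm_apply_apply _) (e.symm_apply_apply _)
      right_inv := fun p => by
        apply Subtype.ext
        refine Prod.ext ?_ ?_
        · show (e (e.symm ⟨p.1.1, p.2.1.1⟩)).1 = _
          rw [e.apply_symm_apply]
        · show (e (e.symm ⟨p.1.2, p.2.1.2⟩)).1 = _
          rw [e.apply_symm_apply] }

end

end Pool.Agent.Helper90.PG
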