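import Pool.Agent.Helper90.PG.Dual

/-!
# Commuting pairs for ordered sets with three levels
-/

set_option autoImplicit false

namespace Pool.Agent.Helper90.PG

open Matrix Module Pool.Agent.Helper90.PZ

/-- the ordered sets: minimal elements `A`, maximal elements `C`, `e` middle elements between all
the minimal and all the maximal elements, and for every `t : T` one middle element above the minimal
element `(p t).1` and below the maximal element `(p t).2` only -/
abbrev Ix (A C T : Type) (e : ℕ) := A ⊕ (Fin e ⊕ T) ⊕ C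

/-- the order of `Ix` -/
def rel {A C T : Type} {e : ℕ} (p : T → A × C) : Ix A C T e → Ix A C T e → Prop
  | .inl _, .inr (.inl (.inl _)) => True
  | .inl a, .inr (.inl (.inr t)) => a = (p t).1
  | .inl _, .inr (.inr _) => True
  | .inr (.inl (.inl _)), .inr (.inr _) => True
  | .inr (.inl (.inr t)), .inr (.inr c) => c = (p t).2
  | _, _ => False

theorem rel_order {A C T : Type} {e : ℕ} (p : T → A × C) : IsStrictOrder (Ix A C T e) (rel p) where
  irrefl := by rintro (a | (i | t) | c) <;> exact id
  trans := by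
    rintro (a | (i | t) | c) (a' | (i' | t') | c') (a'' | (i'' | t'') | c'') h h' <;>
      first | exact trivial | exact h.elim | exact h'.elim

theorem rel_height {A C T : Type} {e : ℕ} (p : T → A × C) (a b c d : Ix A C T e) :
    ¬ (rel p a b ∧ rel p b c ∧ rel p c d) := by
  rintro ⟨h1, h2, h3⟩
  rcases a with a | (a | a) | a <;> rcases b with b | (b | b) | b <;> rcases c with c | (c | c) | c <;>
    rcases d with d | (d | d) | d <;> first | exact h1 | exact h2 | exact h3

/-- the parameters of a supported matrix, without the entries in the corner -/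
abbrev Par (A C T : Type) (e : ℕ) (K : Type) := (Fin e → (A → K) × (C → K)) × (T → K × K)

section
variable {A C T : Type} [Fintype A] [Fintype C] [Fintype T] [DecidableEq A] [DecidableEq C]
  [DecidableEq T] {e : ℕ} (p : T → A × C) {K : Type} [Field K]

/-- the matrix with given parameters -/
def mk (x : Par A C T e K) (z : A → C → K) : Matrix (Ix A C T e) (Ix A C T e) K :=
  Matrix.of fun i j => match i, j with
  | .inl a, .inr (.inl (.inl i)) => (x.1 i).1 a
  | .inl a, .inr (.inl (.inr t)) => if a = (p t).1 then (x.2 t).1 else 0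
  | .inl a, .inr (.inr c) => z a c
  | .inr (.inl (.inl i)), .inr (.inr c) => (x.1 i).2 c
  | .inr (.inl (.inr t)), .inr (.inr c) => if c = (p t).2 then (x.2 t).2 else 0
  | _, _ => 0

theorem mk_mul (x x' : Par A C T e K) (z z' : A → C → K) :
    mk p x z * mk p x' z' = mk p 0 (fun a c => ∑ i, (x.1 i).1 a * (x'.1 i).2 c +
      ∑ t, (if p t = (a, c) then (x.2 t).1 * (x'.2 t).2 else 0)) := by
  ext (a | (i | t) | c) (a' | (i' | t') | c') <;>
    rw [mul_apply, Fintype.sum_sum_type, Fintype.sum_sum_type, Fintype.sum_sum_type] <;>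
    simp [mk]
  refine Finset.sum_congr rfl fun t _ => ?_
  have h0 : p t = (a, c') ↔ c' = (p t).2 ∧ a = (p t).1 := by
    rw [Prod.ext_iff]
    constructor
    · rintro ⟨h1, h2⟩; exact ⟨h2.symm, h1.symm⟩
    · rintro ⟨h1, h2⟩; exact ⟨h2.symm, h1.symm⟩
  by_cases h1 : c' = (p t).2
  · by_cases h2 : a = (p t).1
    · rw [if_pos h1, if_pos h2, if_pos (h0.2 ⟨h1, h2⟩)]
    · rw [if_pos h1, if_neg h2, if_neg fun h => h2 (h0.1 h).2]
  · rw [if_neg h1, if_neg fun h => h1 (h0.1 h).1]

/-- the supported matrices -/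
def suppEquiv : {X : Matrix (Ix A C T e) (Ix A C T e) K // Supp (rel p) X} ≃
    Par A C T e K × (A → C → K) where
  toFun X := ((fun i => (fun a => X.1 (.inl a) (.inr (.inl (.inl i))),
      fun c => X.1 (.inr (.inl (.inl i))) (.inr (.inr c))),
    fun t => (X.1 (.inl (p t).1) (.inr (.inl (.inr t))), X.1 (.inr (.inl (.inr t))) (.inr (.inr (p t).2)))),
    fun a c => X.1 (.inl a) (.inr (.inr c)))
  invFun y := ⟨mk p y.1 y.2, by
    rintro (a | (i | t) | c) (a' | (i' | t') | c') h <;> first | rfl | exact absurd trivial h | exact if_neg h⟩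
  left_inv X := by
    apply Subtype.ext
    ext i j
    obtain ⟨X, hX⟩ := X
    rcases i with a | (i | t) | c <;> rcases j with a' | (i' | t') | c'
    · exact (hX _ _ id).symm
    · rfl
    · show (if a = (p t').1 then X (.inl (p t').1) (.inr (.inl (.inr t'))) else 0) = X _ _
      split_ifs with h
      · rw [h]
      · exact (hX (.inl a) (.inr (.inl (.inr t'))) h).symm
    · rfl
    · exact (hX _ _ id).symm
    · exact (hX _ _ id).symm
    · exact (hX _ _ id).symm
    · rfl
    · exact (hX _ _ id).symm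
    · exact (hX _ _ id).symm
    · exact (hX _ _ id).symm
    · show (if c' = (p t).2 then X (.inr (.inl (.inr t))) (.inr (.inr (p t).2)) else 0) = X _ _
      split_ifs with h
      · rw [h]
      · exact (hX (.inr (.inl (.inr t))) (.inr (.inr c')) h).symm
    · exact (hX _ _ id).symm
    · exact (hX _ _ id).symm
    · exact (hX _ _ id).symm
    · exact (hX _ _ id).symm
  right_inv y := by
    obtain ⟨⟨f, g⟩, z⟩ := y
    refine Prod.ext (Prod.ext rfl ?_) rfl
    ext t
    · exact if_pos rfl
    · exact if_pos rfl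

/-- the bilinear map whose zeros are the commuting pairs -/
def bil (x : Par A C T e K) : Par A C T e K →ₗ[K] (A × C → K) where
  toFun y := fun ac => ∑ i, ((x.1 i).1 ac.1 * (y.1 i).2 ac.2 - (y.1 i).1 ac.1 * (x.1 i).2 ac.2) +
    ∑ t, (if p t = ac then (x.2 t).1 * (y.2 t).2 - (y.2 t).1 * (x.2 t).2 else 0)
  map_add' y y' := by
    ext ac
    simp only [Prod.fst_add, Prod.snd_add, Pi.add_apply]
    rw [add_add_add_comm, ← Finset.sum_add_distrib, ← Finset.sum_add_distrib]
    congr 1
    · exact Finset.sum_congr rfl fun i _ => by ring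
    · refine Finset.sum_congr rfl fun t _ => ?_
      split_ifs
      · ring
      · ring
  map_smul' c y := by
    ext ac
    simp only [Prod.smul_fst, Prod.smul_snd, Pi.smul_apply, smul_eq_mul, RingHom.id_apply]
    rw [mul_add, Finset.mul_sum, Finset.mul_sum]
    congr 1
    · exact Finset.sum_congr rfl fun i _ => by ring
    · refine Finset.sum_congr rfl fun t _ => ?_
      split_ifs
      · ring
      · ring

theorem comm_iff (x x' : Par A C T e K) (z z' : A → C → K) :
    mk p x z * mk p x' z' = mk p x' z' * mk p x z ↔ bil p x x' = 0 := by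
  rw [mk_mul, mk_mul]
  have key : ∀ a c, bil p x x' (a, c) = (∑ i, (x.1 i).1 a * (x'.1 i).2 c +
      ∑ t, (if p t = (a, c) then (x.2 t).1 * (x'.2 t).2 else 0)) - (∑ i, (x'.1 i).1 a * (x.1 i).2 c +
      ∑ t, (if p t = (a, c) then (x'.2 t).1 * (x.2 t).2 else 0)) := by
    intro a c
    show ∑ i, ((x.1 i).1 a * (x'.1 i).2 c - (x'.1 i).1 a * (x.1 i).2 c) +
      ∑ t, (if p t = (a, c) then (x.2 t).1 * (x'.2 t).2 - (x'.2 t).1 * (x.2 t).2 else 0) = _
    rw [add_sub_add_comm, ← Finset.sum_sub_distrib, ← Finset.sum_sub_distrib]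
    congr 1
    refine Finset.sum_congr rfl fun t _ => ?_
    split_ifs
    · rfl
    · rw [sub_zero]
  constructor
  · intro h
    ext ⟨a, c⟩
    have h1 := congrFun (congrFun h (Sum.inl a)) (Sum.inr (Sum.inr c))
    rw [key]
    exact sub_eq_zero.2 h1
  · intro h
    congr 1
    ext a c
    have h1 := congrFun h (a, c)
    rw [key] at h1
    exact sub_eq_zero.1 h1

/-- the dual condition -/
def DCond (l : Matrix A C K) (x : Par A C T e K) : Prop :=
  (∀ i, (∀ c, ∑ a, l a c * (x.1 i).1 a = 0) ∧ ∀ a, ∑ c, l a c * (x.1 i).2 c = 0) ∧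
    ∀ t, l (p t).1 (p t).2 * (x.2 t).1 = 0 ∧ l (p t).1 (p t).2 * (x.2 t).2 = 0

theorem dual_sum (l : Matrix A C K) (x y : Par A C T e K) :
    ∑ ac : A × C, l ac.1 ac.2 * bil p x y ac =
      ∑ i, (∑ c, (y.1 i).2 c * (∑ a, l a c * (x.1 i).1 a) - ∑ a, (y.1 i).1 a * (∑ c, l a c * (x.1 i).2 c)) +
      ∑ t, ((y.2 t).2 * (l (p t).1 (p t).2 * (x.2 t).1) - (y.2 t).1 * (l (p t).1 (p t).2 * (x.2 t).2)) := by
  have h1 : ∀ ac : A × C, l ac.1 ac.2 * bil p x y ac =
      (∑ i, l ac.1 ac.2 * ((x.1 i).1 ac.1 * (y.1 i).2 ac.2 - (y.1 i).1 ac.1 * (x.1 i).2 ac.2)) +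
      ∑ t, (if p t = ac then l ac.1 ac.2 * ((x.2 t).1 * (y.2 t).2 - (y.2 t).1 * (x.2 t).2) else 0) := by
    intro ac
    show l ac.1 ac.2 * (∑ i, ((x.1 i).1 ac.1 * (y.1 i).2 ac.2 - (y.1 i).1 ac.1 * (x.1 i).2 ac.2) +
      ∑ t, (if p t = ac then (x.2 t).1 * (y.2 t).2 - (y.2 t).1 * (x.2 t).2 else 0)) = _
    rw [mul_add, Finset.mul_sum, Finset.mul_sum]
    congr 1
    refine Finset.sum_congr rfl fun t _ => ?_
    split_ifs
    · rfl
    · rw [mul_zero]
  rw [Finset.sum_congr rfl fun ac _ => h1 ac, Finset.sum_add_distrib, Finset.sum_comm]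
  congr 1
  · refine Finset.sum_congr rfl fun i _ => ?_
    rw [Fintype.sum_prod_type]
    simp only [mul_sub, Finset.sum_sub_distrib]
    congr 1
    · rw [Finset.sum_comm]
      refine Finset.sum_congr rfl fun c _ => ?_
      rw [Finset.mul_sum]
      exact Finset.sum_congr rfl fun a _ => by ring
    · refine Finset.sum_congr rfl fun a _ => ?_
      rw [Finset.mul_sum]
      exact Finset.sum_congr rfl fun c _ => by ring
  · rw [Finset.sum_comm]
    refine Finset.sum_congr rfl fun t _ => ?_
    rw [Finset.sum_ite_eq Finset.univ (p t), if_pos (Finset.mem_univ _)]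
    ring

theorem dual_iff (l : Matrix A C K) (x : Par A C T e K) :
    (∀ y, ∑ ac : A × C, l ac.1 ac.2 * bil p x y ac = 0) ↔ DCond p l x := by
  constructor
  · intro h
    refine ⟨fun i => ⟨fun c => ?_, fun a => ?_⟩, fun t => ⟨?_, ?_⟩⟩
    · have h1 := h (Pi.single i (0, Pi.single c 1), 0)
      rw [dual_sum, Finset.sum_eq_single i (fun j _ hj => by simp [Pi.single_eq_of_ne hj]) (by simp),
        Finset.sum_eq_zero (s := (Finset.univ : Finset T)) (fun t _ => by simp)] at h1
      simpa [Pi.single_apply] using h1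
    · have h1 := h (Pi.single i (Pi.single a 1, 0), 0)
      rw [dual_sum, Finset.sum_eq_single i (fun j _ hj => by simp [Pi.single_eq_of_ne hj]) (by simp),
        Finset.sum_eq_zero (s := (Finset.univ : Finset T)) (fun t _ => by simp)] at h1
      simpa [Pi.single_apply] using h1
    · have h1 := h (0, Pi.single t (0, 1))
      rw [dual_sum, Finset.sum_eq_zero (s := (Finset.univ : Finset (Fin e))) (fun t _ => by simp),
        zero_add, Finset.sum_eq_single t (fun j _ hj => by simp [Pi.single_eq_of_ne hj]) (by simp)] at h1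
      simpa using h1
    · have h1 := h (0, Pi.single t (1, 0))
      rw [dual_sum, Finset.sum_eq_zero (s := (Finset.univ : Finset (Fin e))) (fun t _ => by simp),
        zero_add, Finset.sum_eq_single t (fun j _ hj => by simp [Pi.single_eq_of_ne hj]) (by simp)] at h1
      simpa using h1
  · rintro ⟨h1, h2⟩ y
    rw [dual_sum, Finset.sum_eq_zero, Finset.sum_eq_zero, add_zero]
    · intro t _
      rw [(h2 t).1, (h2 t).2, mul_zero, mul_zero, sub_zero]
    · intro i _
      rw [Finset.sum_eq_zero, Finset.sum_eq_zero, sub_zero]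
      · intro a _
        rw [(h1 i).2 a, mul_zero]
      · intro c _
        rw [(h1 i).1 c, mul_zero]

end

end Pool.Agent.Helper90.PG
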